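import Pool.Agent.Lib_helper4.Pluri.Main

/-! # Discrete pluriharmonic functions on the cube: the final form -/

set_option autoImplicit false

namespace Pool.Agent.Lib_helper4.Pluri

open Finset Pool.Agent.Lib_helper30.AA Pool.Agent.Lib_helper14.AAQ Pool.Agent.Lib_helper49.Pluri

variable {n : ℕ}

lemma two_pow_card : ((2 : ℝ) ^ (Fintype.card (Fin n ⊕ Fin n)))⁻¹ = ((2 : ℝ) ^ (2 * n))⁻¹ := by
  rw [Fintype.card_sum, Fintype.card_fin, two_mul]

/-- The average over the cube as a double average. -/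
lemma sum_elim (h : (Fin n ⊕ Fin n → Bool) → ℝ) :
    ((2 : ℝ) ^ (2 * n))⁻¹ * ∑ v, h v = (∑ x, ∑ y, h (Sum.elim x y)) / 4 ^ n := by
  have h1 : ∑ v, h v = ∑ x : Fin n → Bool, ∑ y : Fin n → Bool, h (Sum.elim x y) := by
    rw [← Fintype.sum_prod_type' (f := fun x y => h (Sum.elim x y))]
    exact Fintype.sum_equiv (Equiv.sumArrowEquivProdArrow _ _ _) _ _ fun v => by
      congr 1
      ext k
      rcases k with k | k <;> rfl
  rw [h1, pow_mul]
  norm_num
  rw [inv_mul_eq_div]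

lemma hd_sum (c : Finset (Fin n) → ℂ) (j : Fin n) :
    ((2 : ℝ) ^ (2 * n))⁻¹ * ∑ v, hd (F c) (Sum.inl j) v ^ 2 +
      ((2 : ℝ) ^ (2 * n))⁻¹ * ∑ v, hd (F c) (Sum.inr j) v ^ 2 = th c j := by
  rw [← mul_add, ← Finset.sum_add_distrib]
  simp_rw [hd_sq]
  rw [sum_elim]
  simp_rw [Fj_elim]
  rw [avg_sq, th_eq]
  refine Finset.sum_congr rfl fun S _ => ?_
  rw [norm_cc]

/-- The Fourier weight on the sets which meet `K` is at most the sum of the influences in `K`. -/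
lemma weight_le_inf {I : Type} [Fintype I] [DecidableEq I] (f : (I → Bool) → ℝ) (K : Finset I) :
    ∑ W ∈ (univ : Finset (Finset I)).filter (fun W => (W ∩ K).Nonempty), coef f W ^ 2 ≤
      ∑ k ∈ K, ∑ W ∈ (univ : Finset (Finset I)).filter (fun W => k ∈ W), coef f W ^ 2 := by
  simp_rw [Finset.sum_filter]
  rw [Finset.sum_comm]
  refine Finset.sum_le_sum fun W _ => ?_
  split_ifs with h
  · obtain ⟨j, hj⟩ := h
    rw [Finset.mem_inter] at hj
    have h0 : ∀ i ∈ K, (0 : ℝ) ≤ if i ∈ W then coef f W ^ 2 else 0 := by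
      intro i _
      split_ifs <;> positivity
    have := Finset.single_le_sum h0 hj.2
    rw [if_pos hj.1] at this
    exact this
  · refine Finset.sum_nonneg fun i _ => ?_
    split_ifs <;> positivity

/-- **The final form.** -/
theorem fin (n : ℕ) (c : Finset (Fin n) → ℂ) (f : (Fin n ⊕ Fin n → Bool) → ℝ)
    (hf : ∀ v, f v = (∑ S, c S * ∏ i ∈ S, ((-1) ^ (v (Sum.inl i)).toNat +
      (-1) ^ (v (Sum.inr i)).toNat * Complex.I)).re)
    (hbd : ∀ v, |f v| ≤ 1) (J : Finset (Fin n)) (hJ : J.Nonempty) (d : ℕ)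
    (hdeg : ∀ S, c S ≠ 0 → (S ∩ J).card ≤ d) (Inf : Fin n ⊕ Fin n → ℝ)
    (hInf : ∀ k, Inf k = ((2 : ℝ) ^ (2 * n))⁻¹ * ∑ v, ((f v - f (Function.update v k (!v k))) / 2) ^ 2)
    (V : ℝ) (hV : V = ∑ W with (W ∩ J.disjSum J).Nonempty,
      (((2 : ℝ) ^ (2 * n))⁻¹ * ∑ v, f v * ∏ k ∈ W, (-1 : ℝ) ^ (v k).toNat) ^ 2) :
    ∑ j ∈ J, (Inf (Sum.inl j) + Inf (Sum.inr j)) ^ (19/20 : ℝ) ≤ 2 * (d : ℝ) ^ 2 ∧
    (∃ j ∈ J, (V / (2 * (d : ℝ) ^ 2)) ^ 20 ≤ Inf (Sum.inl j) + Inf (Sum.inr j)) ∧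
    (J = univ → V = ((2 : ℝ) ^ (2 * n))⁻¹ * ∑ v, f v ^ 2 -
      (((2 : ℝ) ^ (2 * n))⁻¹ * ∑ v, f v) ^ 2) := by
  have hF : f = F c := by
    funext v
    rw [hf]
    unfold F
    congr 1
    refine Finset.sum_congr rfl fun S _ => ?_
    congr 1
    refine Finset.prod_congr rfl fun i _ => ?_
    unfold pt e
    push_cast
    rfl
  subst hF
  have hbd' : ∀ x y, |(FF c x y).re| ≤ 1 := fun x y => by
    rw [← F_elim]
    exact hbd _
  have hth : ∀ j, Inf (Sum.inl j) + Inf (Sum.inr j) = th c j := fun j => by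
    rw [← hd_sum, hInf, hInf]
    rfl
  have hcoef : ∀ W : Finset (Fin n ⊕ Fin n), ((2 : ℝ) ^ (2 * n))⁻¹ *
      ∑ v, F c v * ∏ k ∈ W, (-1 : ℝ) ^ (v k).toNat = coef (F c) W := fun W => by
    unfold coef chi
    rw [two_pow_card]
  have hVc : V = ∑ W with (W ∩ J.disjSum J).Nonempty, coef (F c) W ^ 2 := by
    rw [hV]
    exact Finset.sum_congr rfl fun W _ => by rw [hcoef]
  have hInf' : ∀ k, Inf k =
      ∑ W ∈ (univ : Finset (Finset (Fin n ⊕ Fin n))).filter (fun W => k ∈ W), coef (F c) W ^ 2 := by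
    intro k
    rw [hInf, ← influence_eq, two_pow_card]
  have hVle : V ≤ ∑ j ∈ J, th c j := by
    rw [hVc]
    refine (weight_le_inf (F c) (J.disjSum J)).trans (le_of_eq ?_)
    simp_rw [← hInf']
    rw [Finset.sum_disjSum, ← Finset.sum_add_distrib]
    exact Finset.sum_congr rfl fun j _ => hth j
  have hV0 : 0 ≤ V := by
    rw [hVc]
    exact Finset.sum_nonneg fun W _ => by positivity
  have h1 := sum_th hdeg hbd'
  refine ⟨?_, ?_, ?_⟩
  · simp_rw [hth]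
    exact h1
  · simp_rw [hth]
    exact max_of_sum hJ (th c) (th_nonneg c) h1 hV0 hVle
  · intro hJu
    rw [hVc, hJu, ← two_pow_card, variance_eq]
    refine Finset.sum_congr ?_ fun W _ => rfl
    ext W
    have : (univ : Finset (Fin n)).disjSum (univ : Finset (Fin n)) = univ := by
      ext k
      rcases k with k | k <;> simp
    simp [this]

end Pool.Agent.Lib_helper4.Pluri
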