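import Pool.Agent.Lib_helper4.Pluri.Cube
import Pool.Agent.Lib_helper30.AA.Degree

/-! # Discrete pluriharmonic functions on the cube: from (S4) to the influences -/

set_option autoImplicit false

namespace Pool.Agent.Lib_helper4.Pluri

open Finset Pool.Agent.Lib_helper30.AA Pool.Agent.Lib_helper14.AAQ

variable {n : ℕ}

/-- The complex number `x_i + i y_i`. -/
noncomputable def pt (v : Fin n ⊕ Fin n → Bool) (i : Fin n) : ℂ :=
  (e (v (Sum.inl i)) : ℂ) + (e (v (Sum.inr i)) : ℂ) * Complex.I

/-- The real part of the multi-affine polynomial in the `x_i + i y_i` with the coefficients `c`. -/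
noncomputable def F (c : Finset (Fin n) → ℂ) (v : Fin n ⊕ Fin n → Bool) : ℝ :=
  (∑ S, c S * ∏ i ∈ S, pt v i).re

lemma prod_pt (v : Fin n ⊕ Fin n → Bool) (S : Finset (Fin n)) :
    ∏ i ∈ S, pt v i =
      ∑ t ∈ S.powerset, (chi (t.disjSum (S \ t)) v : ℂ) * Complex.I ^ (S \ t).card := by
  unfold pt
  rw [Finset.prod_add]
  refine Finset.sum_congr rfl fun t _ => ?_
  rw [Finset.prod_mul_distrib, Finset.prod_const, chi_eq, Finset.prod_disjSum]
  push_cast
  ring

lemma F_eq (c : Finset (Fin n) → ℂ) (v : Fin n ⊕ Fin n → Bool) :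
    F c v = ∑ S : Finset (Fin n), ∑ t ∈ S.powerset,
      (c S * Complex.I ^ (S \ t).card).re * chi (t.disjSum (S \ t)) v := by
  unfold F
  rw [Complex.re_sum]
  refine Finset.sum_congr rfl fun S _ => ?_
  rw [prod_pt, Finset.mul_sum, Complex.re_sum]
  refine Finset.sum_congr rfl fun t _ => ?_
  have : c S * ((chi (t.disjSum (S \ t)) v : ℂ) * Complex.I ^ (S \ t).card) =
      ((chi (t.disjSum (S \ t)) v : ℝ) : ℂ) * (c S * Complex.I ^ (S \ t).card) := by ring
  rw [this, Complex.re_ofReal_mul]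
  ring

lemma coef_F (c : Finset (Fin n) → ℂ) (W : Finset (Fin n ⊕ Fin n)) :
    coef (F c) W = ∑ S : Finset (Fin n), ∑ t ∈ S.powerset,
      (c S * Complex.I ^ (S \ t).card).re * (if t.disjSum (S \ t) = W then 1 else 0) := by
  have h : F c = fun v => ∑ S : Finset (Fin n), ∑ t ∈ S.powerset,
      (c S * Complex.I ^ (S \ t).card).re * chi (t.disjSum (S \ t)) v := funext (F_eq c)
  rw [h, coef_sum]
  refine Finset.sum_congr rfl fun S _ => ?_
  rw [coef_sum]
  refine Finset.sum_congr rfl fun t _ => ?_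
  rw [coef_const_mul]
  congr 1
  exact coef_chi _ _

/-- The degree in the variables of `J`. -/
lemma card_le_of_coef_F {c : Finset (Fin n) → ℂ} {J : Finset (Fin n)} {d : ℕ}
    (hdeg : ∀ S, c S ≠ 0 → (S ∩ J).card ≤ d) {W : Finset (Fin n ⊕ Fin n)}
    (hW : coef (F c) W ≠ 0) : (W ∩ J.disjSum J).card ≤ d := by
  rw [coef_F] at hW
  obtain ⟨S, -, hS⟩ := Finset.exists_ne_zero_of_sum_ne_zero hW
  obtain ⟨t, ht, hS⟩ := Finset.exists_ne_zero_of_sum_ne_zero hS
  have hc : c S ≠ 0 := by
    rintro h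
    simp [h] at hS
  have ht' : t.disjSum (S \ t) = W := by
    by_contra h
    simp [h] at hS
  have hd := hdeg S hc
  have e1 : W ∩ J.disjSum J = (t ∩ J).disjSum ((S \ t) ∩ J) := by
    rw [← ht']
    ext k
    rcases k with k | k <;> simp
  rw [e1, Finset.card_disjSum]
  have e2 : S ∩ J = (t ∩ J) ∪ ((S \ t) ∩ J) := by
    rw [← Finset.union_inter_distrib_right, Finset.union_sdiff_of_subset (Finset.mem_powerset.mp ht)]
  have e3 : Disjoint (t ∩ J) ((S \ t) ∩ J) :=
    Finset.disjoint_of_subset_left Finset.inter_subset_left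
      (Finset.disjoint_of_subset_right Finset.inter_subset_left Finset.disjoint_sdiff)
  rw [e2, Finset.card_union_of_disjoint e3] at hd
  exact hd

/-- The part without the variable `j`. -/
noncomputable def G0 (c : Finset (Fin n) → ℂ) (j : Fin n) (v : Fin n ⊕ Fin n → Bool) : ℂ :=
  ∑ T ∈ (univ.erase j).powerset, c T * ∏ i ∈ T, pt v i

/-- The derivative in the variable `j`. -/
noncomputable def Fj (c : Finset (Fin n) → ℂ) (j : Fin n) (v : Fin n ⊕ Fin n → Bool) : ℂ :=
  ∑ T ∈ (univ.erase j).powerset, c (insert j T) * ∏ i ∈ T, pt v i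

lemma sum_split (j : Fin n) (h : Finset (Fin n) → ℂ) :
    ∑ S, h S = ∑ T ∈ (univ.erase j).powerset, h T +
      ∑ T ∈ (univ.erase j).powerset, h (insert j T) := by
  rw [← Finset.sum_powerset_insert (by simp), Finset.insert_erase (mem_univ j), Finset.powerset_univ]

lemma F_split (c : Finset (Fin n) → ℂ) (j : Fin n) (v : Fin n ⊕ Fin n → Bool) :
    F c v = (G0 c j v + pt v j * Fj c j v).re := by
  unfold F G0 Fj
  rw [sum_split j, Finset.mul_sum]
  congr 2
  refine Finset.sum_congr rfl fun T hT => ?_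
  have hj : j ∉ T := fun h => by
    have := Finset.mem_powerset.mp hT h
    simp at this
  rw [Finset.prod_insert hj]
  ring

lemma prod_pt_congr {j : Fin n} {v w : Fin n ⊕ Fin n → Bool} (h : ∀ i, i ≠ j → pt v i = pt w i)
    {T : Finset (Fin n)} (hT : T ∈ (univ.erase j).powerset) : ∏ i ∈ T, pt v i = ∏ i ∈ T, pt w i := by
  refine Finset.prod_congr rfl fun i hi => h i ?_
  have := Finset.mem_powerset.mp hT hi
  exact (Finset.mem_erase.mp this).1

lemma G0_congr (c : Finset (Fin n) → ℂ) {j : Fin n} {v w : Fin n ⊕ Fin n → Bool}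
    (h : ∀ i, i ≠ j → pt v i = pt w i) : G0 c j v = G0 c j w := by
  unfold G0
  exact Finset.sum_congr rfl fun T hT => by rw [prod_pt_congr h hT]

lemma Fj_congr (c : Finset (Fin n) → ℂ) {j : Fin n} {v w : Fin n ⊕ Fin n → Bool}
    (h : ∀ i, i ≠ j → pt v i = pt w i) : Fj c j v = Fj c j w := by
  unfold Fj
  exact Finset.sum_congr rfl fun T hT => by rw [prod_pt_congr h hT]

lemma pt_update_inl {v : Fin n ⊕ Fin n → Bool} {j i : Fin n} (h : i ≠ j) (b : Bool) :
    pt (Function.update v (Sum.inl j) b) i = pt v i := by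
  unfold pt
  rw [Function.update_of_ne (by simpa using h), Function.update_of_ne (by simp)]

lemma pt_update_inr {v : Fin n ⊕ Fin n → Bool} {j i : Fin n} (h : i ≠ j) (b : Bool) :
    pt (Function.update v (Sum.inr j) b) i = pt v i := by
  unfold pt
  rw [Function.update_of_ne (by simp), Function.update_of_ne (by simpa using h)]

lemma e_not (b : Bool) : e (!b) = -e b := by cases b <;> simp

lemma e_sq (b : Bool) : e b * e b = 1 := by cases b <;> simp

lemma hd_inl (c : Finset (Fin n) → ℂ) (j : Fin n) (v : Fin n ⊕ Fin n → Bool) :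
    hd (F c) (Sum.inl j) v = e (v (Sum.inl j)) * (Fj c j v).re := by
  have h0 : ∀ i, i ≠ j → pt (Function.update v (Sum.inl j) (!v (Sum.inl j))) i = pt v i :=
    fun i hi => pt_update_inl hi _
  unfold hd
  rw [F_split c j v, F_split c j (Function.update v (Sum.inl j) (!v (Sum.inl j))),
    G0_congr c h0, Fj_congr c h0]
  unfold pt
  rw [Function.update_self, Function.update_of_ne (by simp), e_not]
  simp only [Complex.add_re, Complex.mul_re, Complex.add_im, Complex.mul_im, Complex.ofReal_re,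
    Complex.ofReal_im, Complex.I_re, Complex.I_im]
  ring

lemma hd_inr (c : Finset (Fin n) → ℂ) (j : Fin n) (v : Fin n ⊕ Fin n → Bool) :
    hd (F c) (Sum.inr j) v = -(e (v (Sum.inr j)) * (Fj c j v).im) := by
  have h0 : ∀ i, i ≠ j → pt (Function.update v (Sum.inr j) (!v (Sum.inr j))) i = pt v i :=
    fun i hi => pt_update_inr hi _
  unfold hd
  rw [F_split c j v, F_split c j (Function.update v (Sum.inr j) (!v (Sum.inr j))),
    G0_congr c h0, Fj_congr c h0]
  unfold pt
  rw [Function.update_self, Function.update_of_ne (by simp), e_not]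
  simp only [Complex.add_re, Complex.mul_re, Complex.add_im, Complex.mul_im, Complex.ofReal_re,
    Complex.ofReal_im, Complex.I_re, Complex.I_im]
  ring

lemma hd_sq (c : Finset (Fin n) → ℂ) (j : Fin n) (v : Fin n ⊕ Fin n → Bool) :
    hd (F c) (Sum.inl j) v ^ 2 + hd (F c) (Sum.inr j) v ^ 2 = ‖Fj c j v‖ ^ 2 := by
  rw [hd_inl, hd_inr, Complex.sq_norm, Complex.normSq_apply]
  have h1 := e_sq (v (Sum.inl j))
  have h2 := e_sq (v (Sum.inr j))
  linear_combination (Fj c j v).re ^ 2 * h1 + (Fj c j v).im ^ 2 * h2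

lemma norm_Fj_le_hd (c : Finset (Fin n) → ℂ) (j : Fin n) (v : Fin n ⊕ Fin n → Bool) :
    ‖Fj c j v‖ ≤ |hd (F c) (Sum.inl j) v| + |hd (F c) (Sum.inr j) v| := by
  have he : ∀ b, |e b| = 1 := fun b => by cases b <;> simp
  rw [hd_inl, hd_inr, abs_neg, abs_mul, abs_mul, he, he, one_mul, one_mul]
  exact Complex.norm_le_abs_re_add_abs_im _

/-- The derivative is bounded by one. -/
lemma norm_Fj_le_one {c : Finset (Fin n) → ℂ} (hf : ∀ v, |F c v| ≤ 1) (j : Fin n)
    (v : Fin n ⊕ Fin n → Bool) : ‖Fj c j v‖ ≤ 1 := by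
  -- the value at the point with the coordinates `a`, `b` at `j`
  have key : ∀ a b : Bool, |(G0 c j v).re + (e a * (Fj c j v).re - e b * (Fj c j v).im)| ≤ 1 := by
    intro a b
    set w : Fin n ⊕ Fin n → Bool :=
      Function.update (Function.update v (Sum.inl j) a) (Sum.inr j) b with hw
    have h0 : ∀ i, i ≠ j → pt w i = pt v i := fun i hi => by
      rw [hw, pt_update_inr hi, pt_update_inl hi]
    have h1 := hf w
    rw [F_split c j w, G0_congr c h0, Fj_congr c h0] at h1
    have h2 : pt w j = (e a : ℂ) + (e b : ℂ) * Complex.I := by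
      unfold pt
      rw [hw, Function.update_self, Function.update_of_ne (by simp), Function.update_self]
    rw [h2] at h1
    simp only [Complex.add_re, Complex.mul_re, Complex.add_im, Complex.mul_im, Complex.ofReal_re,
      Complex.ofReal_im, Complex.I_re, Complex.I_im] at h1
    have h3 : (G0 c j v).re + (e a * (Fj c j v).re - e b * (Fj c j v).im) =
      (G0 c j v).re + ((e a + (e b * 0 - 0 * 1)) * (Fj c j v).re -
        (0 + (e b * 1 + 0 * 0)) * (Fj c j v).im) := by ring
    rw [h3]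
    exact h1
  have k1 := abs_le.mp (key false false)
  have k2 := abs_le.mp (key true true)
  have k3 := abs_le.mp (key true false)
  have k4 := abs_le.mp (key false true)
  simp only [e_false, e_true] at k1 k2 k3 k4
  have h1 : |(Fj c j v).re - (Fj c j v).im| ≤ 1 := by
    rw [abs_le]; constructor <;> linarith [k1.1, k1.2, k2.1, k2.2]
  have h2 : |(Fj c j v).re + (Fj c j v).im| ≤ 1 := by
    rw [abs_le]; constructor <;> linarith [k3.1, k3.2, k4.1, k4.2]
  have h3 : ‖Fj c j v‖ ^ 2 ≤ 1 := by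
    rw [Complex.sq_norm, Complex.normSq_apply]
    have h4 := (sq_le_one_iff_abs_le_one _).mpr h1
    have h5 := (sq_le_one_iff_abs_le_one _).mpr h2
    nlinarith
  exact (sq_le_one_iff₀ (norm_nonneg _)).mp h3

end Pool.Agent.Lib_helper4.Pluri
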