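import Pool.Agent.Lib_helper14.AAQ.Ext

/-! # Pointwise bound for the sum of the half differences of a bounded function of small degree -/

set_option autoImplicit false

namespace Pool.Agent.Lib_helper4.Pluri

open Finset Polynomial Pool.Agent.Lib_helper30.AA Pool.Agent.Lib_helper14.AAQ

variable {I : Type} [Fintype I] [DecidableEq I]

/-- The half difference. -/
noncomputable def hd (f : (I → Bool) → ℝ) (k : I) (v : I → Bool) : ℝ :=
  (f v - f (Function.update v k (!v k))) / 2

lemma hd_eq (f : (I → Bool) → ℝ) (k : I) (v : I → Bool) :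
    hd f k v = ∑ W : Finset I, if k ∈ W then coef f W * chi W v else 0 := by
  have h1 : f (Function.update v k (!v k)) = ∑ W : Finset I, coef f W * chi W (flip k v) :=
    inversion f (flip k v)
  unfold hd
  rw [h1, inversion f v, ← Finset.sum_sub_distrib, Finset.sum_div]
  refine Finset.sum_congr rfl fun W _ => ?_
  split_ifs with h
  · rw [chi_flip_of_mem h]; ring
  · rw [chi_flip_of_notMem h]; ring

lemma abs_sum_hd_le {f : (I → Bool) → ℝ} (hf : ∀ x, |f x| ≤ 1) {A : Finset I} {d : ℕ}
    (hdeg : ∀ W : Finset I, coef f W ≠ 0 → (W ∩ A).card ≤ d) (v : I → Bool) :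
    |∑ k ∈ A, hd f k v| ≤ (d : ℝ) ^ 2 := by
  set P : ℝ[X] := ∑ W : Finset I, C (coef f W * chi W v) * X ^ (W ∩ A).card with hP
  have hPdeg : P.degree ≤ d := by
    rw [← natDegree_le_iff_degree_le]
    refine natDegree_sum_le_of_forall_le _ _ fun W _ => ?_
    by_cases h : coef f W = 0
    · simp [h]
    · exact (natDegree_C_mul_X_pow_le _ _).trans (hdeg W h)
  have hPev : ∀ t : ℝ, P.eval t = ext f (fun k => (if k ∈ A then t else 1) * e (v k)) := by
    intro t
    rw [ext_eq, hP, eval_finsetSum]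
    refine Finset.sum_congr rfl fun W _ => ?_
    rw [Finset.prod_mul_distrib, ← chi_eq, Finset.prod_ite, Finset.prod_const_one, mul_one,
      Finset.prod_const]
    simp only [eval_mul, eval_C, eval_pow, eval_X]
    have : W.filter (fun i => i ∈ A) = W ∩ A := by
      ext i; simp
    rw [this]
    ring
  have hPb : ∀ t ∈ Set.Icc (-1 : ℝ) 1, |P.eval t| ≤ 1 := by
    intro t ht
    rw [hPev]
    refine abs_ext_le (fun i => ?_) hf
    have he : |e (v i)| = 1 := by
      cases v i <;> simp
    rw [abs_mul, he, mul_one]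
    split_ifs
    · exact abs_le.mpr ht
    · simp
  have hder : P.derivative.eval 1 = ∑ k ∈ A, hd f k v := by
    simp_rw [hd_eq]
    rw [Finset.sum_comm, hP, derivative_sum, eval_finsetSum]
    refine Finset.sum_congr rfl fun W _ => ?_
    rw [← Finset.sum_filter, Finset.sum_const, nsmul_eq_mul]
    have : A.filter (fun i => i ∈ W) = W ∩ A := by
      ext i; simp [and_comm]
    rw [this]
    simp only [derivative_mul, derivative_C, zero_mul, zero_add, derivative_X_pow, eval_mul, eval_C,
      eval_pow, eval_X, one_pow, mul_one]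
    ring
  rw [← hder]
  exact markov_endpoint hPdeg hPb

/-- The sum of the moduli of the half differences in `K` is at most `2 d ^ 2` at every point. -/
theorem sum_abs_hd_le {f : (I → Bool) → ℝ} (hf : ∀ x, |f x| ≤ 1) {K : Finset I} {d : ℕ}
    (hdeg : ∀ W : Finset I, coef f W ≠ 0 → (W ∩ K).card ≤ d) (v : I → Bool) :
    ∑ k ∈ K, |hd f k v| ≤ 2 * (d : ℝ) ^ 2 := by
  have hsub : ∀ A : Finset I, A ⊆ K → ∀ W : Finset I, coef f W ≠ 0 → (W ∩ A).card ≤ d :=
    fun A hA W hW => (Finset.card_le_card (Finset.inter_subset_inter_left hA)).trans (hdeg W hW)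
  have h1 := abs_sum_hd_le hf (hsub (K.filter fun k => 0 ≤ hd f k v) (Finset.filter_subset _ _)) v
  have h2 := abs_sum_hd_le hf (hsub (K.filter fun k => ¬ 0 ≤ hd f k v) (Finset.filter_subset _ _)) v
  rw [← Finset.sum_filter_add_sum_filter_not K (fun k => 0 ≤ hd f k v)]
  have h3 : ∑ k ∈ K.filter (fun k => 0 ≤ hd f k v), |hd f k v| =
      ∑ k ∈ K.filter (fun k => 0 ≤ hd f k v), hd f k v :=
    Finset.sum_congr rfl fun k hk => abs_of_nonneg (Finset.mem_filter.mp hk).2
  have h4 : ∑ k ∈ K.filter (fun k => ¬ 0 ≤ hd f k v), |hd f k v| =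
      -∑ k ∈ K.filter (fun k => ¬ 0 ≤ hd f k v), hd f k v := by
    rw [← Finset.sum_neg_distrib]
    exact Finset.sum_congr rfl fun k hk => abs_of_neg (not_le.mp (Finset.mem_filter.mp hk).2)
  rw [h3, h4]
  linarith [le_abs_self (∑ k ∈ K.filter (fun k => 0 ≤ hd f k v), hd f k v),
    neg_abs_le (∑ k ∈ K.filter (fun k => ¬ 0 ≤ hd f k v), hd f k v)]

end Pool.Agent.Lib_helper4.Pluri
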