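import Pool.Agent.Lib_helper4.Pluri.App
import Pool.Agent.Lib_helper49.Pluri.Cube

/-! # Discrete pluriharmonic functions on the cube: the influences -/

set_option autoImplicit false

namespace Pool.Agent.Lib_helper4.Pluri

open Finset Pool.Agent.Lib_helper30.AA Pool.Agent.Lib_helper14.AAQ Pool.Agent.Lib_helper49.Pluri

variable {n : ℕ}

lemma pt_elim (x y : Fin n → Bool) (i : Fin n) : pt (Sum.elim x y) i = zz (x i) (y i) := by
  unfold pt zz e
  push_cast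
  simp

lemma F_elim (c : Finset (Fin n) → ℂ) (x y : Fin n → Bool) :
    F c (Sum.elim x y) = (FF c x y).re := by
  unfold F FF
  simp_rw [pt_elim]

lemma Fj_elim (c : Finset (Fin n) → ℂ) (j : Fin n) (x y : Fin n → Bool) :
    Fj c j (Sum.elim x y) = FF (dc c j) x y := by
  unfold Fj FF
  rw [sum_split j (fun S => dc c j S * ∏ i ∈ S, zz (x i) (y i))]
  have h2 : ∑ T ∈ (univ.erase j).powerset, dc c j (insert j T) * ∏ i ∈ insert j T, zz (x i) (y i) = 0 :=
    Finset.sum_eq_zero fun T _ => by simp [dc]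
  rw [h2, add_zero]
  refine Finset.sum_congr rfl fun T hT => ?_
  have hj : j ∉ T := fun h => by
    have := Finset.mem_powerset.mp hT h
    simp at this
  rw [dc, if_neg hj]
  simp_rw [pt_elim]

lemma hf_of {c : Finset (Fin n) → ℂ} (hf : ∀ x y, |(FF c x y).re| ≤ 1) (v : Fin n ⊕ Fin n → Bool) :
    |F c v| ≤ 1 := by
  have h : v = Sum.elim (fun i => v (Sum.inl i)) (fun i => v (Sum.inr i)) := by
    ext k
    rcases k with k | k <;> rfl
  rw [h, F_elim]
  exact hf _ _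

/-- The sum of the influences of `x_j` and `y_j`. -/
noncomputable def th (c : Finset (Fin n) → ℂ) (j : Fin n) : ℝ :=
  ∑ S with j ∈ S, 2 ^ (S.card - 1) * ‖c S‖ ^ 2

lemma th_eq (c : Finset (Fin n) → ℂ) (j : Fin n) : th c j = ∑ S, ‖cc (dc c j) S‖ ^ 2 := by
  have h1 := influence c j
  simp only [halfdiff] at h1
  rw [avg_sq] at h1
  unfold th
  rw [← h1]
  refine Finset.sum_congr rfl fun S _ => ?_
  rw [norm_cc]

lemma th_le {c : Finset (Fin n) → ℂ} (hf : ∀ x y, |(FF c x y).re| ≤ 1) (j : Fin n) :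
    th c j ^ (19/20 : ℝ) ≤ (∑ x, ∑ y, ‖FF (dc c j) x y‖) / 4 ^ n := by
  rw [th_eq, Pool.Agent.Lib_helper49.Pluri.sum_pair]
  simp only [FF_ev]
  refine s4 n (cc (dc c j)) fun k => ?_
  rw [← FF_ev, ← Fj_elim]
  exact norm_Fj_le_one (hf_of hf) j _

/-- **The power sum of the influences.** -/
theorem sum_th {c : Finset (Fin n) → ℂ} {J : Finset (Fin n)} {d : ℕ}
    (hdeg : ∀ S, c S ≠ 0 → (S ∩ J).card ≤ d) (hf : ∀ x y, |(FF c x y).re| ≤ 1) :
    ∑ j ∈ J, th c j ^ (19/20 : ℝ) ≤ 2 * (d : ℝ) ^ 2 := by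
  have h4 : (0 : ℝ) < 4 ^ n := by positivity
  have h1 : ∑ j ∈ J, th c j ^ (19/20 : ℝ) ≤
      (∑ x : Fin n → Bool, ∑ y : Fin n → Bool, ∑ j ∈ J, ‖FF (dc c j) x y‖) / 4 ^ n := by
    refine (Finset.sum_le_sum fun j _ => th_le hf j).trans (le_of_eq ?_)
    rw [← Finset.sum_div, Finset.sum_comm]
    congr 1
    refine Finset.sum_congr rfl fun x _ => ?_
    rw [Finset.sum_comm]
  refine h1.trans ?_
  rw [div_le_iff₀ h4]
  have h2 : ∀ x y : Fin n → Bool, ∑ j ∈ J, ‖FF (dc c j) x y‖ ≤ 2 * (d : ℝ) ^ 2 := by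
    intro x y
    have h3 := sum_abs_hd_le (hf_of hf) (K := J.disjSum J) (d := d)
      (fun W hW => card_le_of_coef_F hdeg hW) (Sum.elim x y)
    rw [Finset.sum_disjSum, ← Finset.sum_add_distrib] at h3
    refine le_trans (Finset.sum_le_sum fun j _ => ?_) h3
    rw [← Fj_elim]
    exact norm_Fj_le_hd c j _
  calc ∑ x : Fin n → Bool, ∑ y : Fin n → Bool, ∑ j ∈ J, ‖FF (dc c j) x y‖
      ≤ ∑ x : Fin n → Bool, ∑ y : Fin n → Bool, 2 * (d : ℝ) ^ 2 :=
        Finset.sum_le_sum fun x _ => Finset.sum_le_sum fun y _ => h2 x y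
    _ = 2 * (d : ℝ) ^ 2 * 4 ^ n := by
        simp only [Finset.sum_const, Finset.card_univ, Fintype.card_fun, Fintype.card_bool,
          Fintype.card_fin, nsmul_eq_mul]
        push_cast
        have : (4 : ℝ) ^ n = 2 ^ n * 2 ^ n := by
          rw [← mul_pow]; norm_num
        rw [this]
        ring

lemma th_nonneg (c : Finset (Fin n) → ℂ) (j : Fin n) : 0 ≤ th c j :=
  Finset.sum_nonneg fun S _ => by positivity

/-- From the power sum to the maximum. -/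
theorem max_of_sum {J : Finset (Fin n)} (hJ : J.Nonempty) (t : Fin n → ℝ) (ht : ∀ j, 0 ≤ t j)
    {d : ℕ} (h1 : ∑ j ∈ J, t j ^ (19/20 : ℝ) ≤ 2 * (d : ℝ) ^ 2) {V : ℝ} (hV : 0 ≤ V)
    (hVle : V ≤ ∑ j ∈ J, t j) : ∃ j ∈ J, (V / (2 * (d : ℝ) ^ 2)) ^ 20 ≤ t j := by
  obtain ⟨j, hj, hmax⟩ := J.exists_max_image t hJ
  refine ⟨j, hj, ?_⟩
  have h2 : V ≤ t j ^ (1/20 : ℝ) * (2 * (d : ℝ) ^ 2) := by
    refine hVle.trans ?_
    calc ∑ i ∈ J, t i ≤ ∑ i ∈ J, t j ^ (1/20 : ℝ) * t i ^ (19/20 : ℝ) := by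
          refine Finset.sum_le_sum fun i hi => ?_
          have h3 : t i = t i ^ (1/20 : ℝ) * t i ^ (19/20 : ℝ) := by
            rw [← Real.rpow_add_of_nonneg (ht i) (by norm_num) (by norm_num)]
            norm_num
          conv_lhs => rw [h3]
          exact mul_le_mul_of_nonneg_right
            (Real.rpow_le_rpow (ht i) (hmax i hi) (by norm_num))
            (Real.rpow_nonneg (ht i) _)
      _ = t j ^ (1/20 : ℝ) * ∑ i ∈ J, t i ^ (19/20 : ℝ) := by rw [Finset.mul_sum]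
      _ ≤ t j ^ (1/20 : ℝ) * (2 * (d : ℝ) ^ 2) :=
          mul_le_mul_of_nonneg_left h1 (Real.rpow_nonneg (ht j) _)
  rcases Nat.eq_zero_or_pos d with hd | hd
  · rw [hd]
    simp only [Nat.cast_zero]
    norm_num
    exact ht j
  · have hd' : (0 : ℝ) < 2 * (d : ℝ) ^ 2 := by positivity
    have h3 : V / (2 * (d : ℝ) ^ 2) ≤ t j ^ (1/20 : ℝ) := by
      rw [div_le_iff₀ hd']
      exact h2
    calc (V / (2 * (d : ℝ) ^ 2)) ^ 20 ≤ (t j ^ (1/20 : ℝ)) ^ 20 :=
          pow_le_pow_left₀ (div_nonneg hV hd'.le) h3 20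
      _ = t j := by
          rw [← Real.rpow_natCast, ← Real.rpow_mul (ht j)]
          norm_num

end Pool.Agent.Lib_helper4.Pluri
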